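import Pool.Agent.H772R2.NS.Defs

/-!
Project EV (hard problem MP_a38b17_an): energy equality for weak solutions under a one-sided condition
for the direction of the vorticity. Statements of the packages. `H1graph Ω` is the closure of the
pairs `(φ, ∇φ)` in `L² × L²`, `φ` smooth, divergence free, compactly supported in `Ω`.
-/

set_option autoImplicit false

open MeasureTheory Set
open scoped ENNReal NNReal ContDiff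

namespace Pool.Agent.U481.EV

open H772R2.NS

/-- The vorticity as a function of the gradient, `z (i, j) = ∂_j u_i`. -/
noncomputable def rot (z : M3) : E3 :=
  WithLp.toLp 2 ![z (2, 1) - z (1, 2), z (0, 2) - z (2, 0), z (1, 0) - z (0, 1)]

/-- PACKAGE ID. Both integrals only see the support of `χ`. -/
def S_id : Prop := ∀ Ω : Set E3, MeasurableSet Ω → ∀ (v : L2V Ω) (z : L2M Ω), (v, z) ∈ H1graph Ω →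
  ∀ χ H : E3 → ℝ, ContDiff ℝ ∞ χ → HasCompactSupport χ → ContDiff ℝ 1 H →
    |∫ y in Ω, χ y * fderiv ℝ H y (rot (z y))| ≤
      ∫ y in Ω, ‖v y‖ * (‖fderiv ℝ H y‖ * ‖fderiv ℝ χ y‖)

/-- PACKAGE BS. -/
def S_bs : Prop := ∃ C : ℝ≥0, ∀ φ : E3 → E3, ContDiff ℝ ∞ φ → HasCompactSupport φ →
  (∀ x, ∑ i, jac φ x (i, i) = 0) → ∀ a : E3,
    ‖φ a‖ₑ ≤ C * ∫⁻ y, ‖rot (jac φ y)‖ₑ * (‖a - y‖ₑ ^ 2)⁻¹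

/-- PACKAGE DEN: `S_bs → S_den`. -/
def S_den : Prop := ∃ C : ℝ≥0, ∀ Ω : Set E3, MeasurableSet Ω → ∀ (v : L2V Ω) (z : L2M Ω),
  (v, z) ∈ H1graph Ω → ∀ᵐ a ∂(volume.restrict Ω),
    ‖v a‖ₑ ≤ C * ∫⁻ y in Ω, ‖rot (z y)‖ₑ * (‖a - y‖ₑ ^ 2)⁻¹

/-- PACKAGE HED. -/
def S_hed : Prop := ∃ C : ℝ≥0, ∀ f v : E3 → ℝ≥0∞, Measurable f → AEMeasurable v →
  (∀ᵐ a, v a ≤ ∫⁻ y, f y * (‖a - y‖ₑ ^ 2)⁻¹) → ∀ A ρ : ℝ≥0, 0 < ρ →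
  (∀ (a : E3) (r : ℝ≥0), r ≤ 2 * ρ → ∫⁻ y in Metric.ball a r, f y ≤ A * r) →
    ∫⁻ a, v a ^ 4 ≤ C * ((A : ℝ≥0∞) ^ 2 * ∫⁻ y, f y ^ 2)
      + C * (ρ : ℝ≥0∞)⁻¹ * ((∫⁻ y, f y ^ 2) * ∫⁻ a, v a ^ 2)

/-- PACKAGE MOR: `S_id → S_mor`. -/
def S_mor : Prop := ∃ C : ℝ≥0, ∀ Ω : Set E3, MeasurableSet Ω → ∀ (v : L2V Ω) (z : L2M Ω),
  (v, z) ∈ H1graph Ω → ∀ (κ m R : ℝ), 0 < κ → κ ≤ 1 → 0 ≤ m → 0 < R → ∀ a : E3, ∀ g : E3 → ℝ,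
  ContDiff ℝ 1 g → (∀ x y, |g x - g y| ≤ ‖x - y‖) →
  (∀ᵐ y ∂(volume.restrict Ω), y ∈ Metric.ball a R → κ * ‖rot (z y)‖ - m ≤ fderiv ℝ g y (rot (z y))) →
  ∀ r : ℝ, 0 < r → r ≤ R →
    ∫⁻ y in Ω ∩ Metric.ball a (κ * r / 4), ‖rot (z y)‖ₑ ≤
      C * ENNReal.ofReal (r / κ ^ 2 * (‖v‖ / √R + m * R ^ 2))

/-- The `L⁴` bound. -/
def S_four : Prop := ∀ κ m R M : ℝ, 0 < κ → κ ≤ 1 → 0 ≤ m → 0 < R → 0 ≤ M → ∃ C : ℝ≥0,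
  ∀ Ω : Set E3, MeasurableSet Ω → ∀ (v : L2V Ω) (z : L2M Ω), (v, z) ∈ H1graph Ω → ‖v‖ ≤ M →
  (∀ a : E3, ∃ g : E3 → ℝ, ContDiff ℝ 1 g ∧ (∀ x y, |g x - g y| ≤ ‖x - y‖) ∧
    ∀ᵐ y ∂(volume.restrict Ω), y ∈ Metric.ball a R →
      κ * ‖rot (z y)‖ - m ≤ fderiv ℝ g y (rot (z y))) →
  (eLpNorm v 4 (volume.restrict Ω)) ^ 4 ≤ C * ENNReal.ofReal (‖z‖ ^ 2)

end Pool.Agent.U481.EV
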