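import Pool.Agent.U481.EV.Mor
import Pool.Agent.R772.EE2

set_option autoImplicit false

open MeasureTheory Set
open scoped InnerProductSpace ENNReal NNReal ContDiff

namespace Pool.Agent.U481.EV

open H772R2.NS.Pub Pool.Agent.R772.EE Pool.Agent.TH340.FF

/-- The curl of a field with the gradient matrix `z`, `z (i, j) = ∂_j u_i`. -/
noncomputable def vort (z : Mat) : R3 :=
  let w : EuclideanSpace ℝ (Fin 3 × Fin 3) := z
  (WithLp.toLp 2 ![w (2, 1) - w (1, 2), w (0, 2) - w (2, 0), w (1, 0) - w (0, 1)] :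
    EuclideanSpace ℝ (Fin 3))

/-- In every ball of radius `R` there is a function `g` with Lipschitz constant one such that the
vorticity `ω` satisfies `ω·∇g ≥ κ |ω|` where `|ω| > m`. -/
def OneSided {Ω : Set R3} (κ m R : ℝ) (z : L2 Ω Mat) : Prop :=
  ∀ a : R3, ∃ g : R3 → ℝ, ContDiff ℝ 1 g ∧ (∀ x y, |g x - g y| ≤ ‖x - y‖) ∧
    ∀ᵐ y ∂(volume.restrict Ω), y ∈ Metric.ball a R → m < ‖vort (z.fn y)‖ →
      κ * ‖vort (z.fn y)‖ ≤ fderiv ℝ g y (vort (z.fn y))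

lemma fourth (hfour : S_four) {κ m R M : ℝ} (hκ : 0 < κ) (hκ1 : κ ≤ 1) (hm : 0 ≤ m) (hR : 0 < R)
    (hM : 0 ≤ M) : ∃ C : ℝ≥0, ∀ Ω : Set R3, MeasurableSet Ω → ∀ (v : L2 Ω R3) (z : L2 Ω Mat),
      (v, z) ∈ H1graph Ω → ‖v‖ ≤ M → OneSided κ m R z →
      norm4 v ^ 4 ≤ C * ENNReal.ofReal (‖z‖ ^ 2) := by
  obtain ⟨C, hC⟩ := hfour κ (2 * m) R M hκ hκ1 (by positivity) hR hM
  refine ⟨C, fun Ω hΩ v z hvz hv hz => ?_⟩
  have hvz' : ((v, z) : H772R2.NS.L2V (show Set H772R2.NS.E3 from Ω) ×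
      H772R2.NS.L2M (show Set H772R2.NS.E3 from Ω)) ∈ H772R2.NS.H1graph (show Set H772R2.NS.E3 from Ω) :=
    H772R2.NS.mem_graphW.mp (mem_pub.mpr hvz)
  refine hC (show Set H772R2.NS.E3 from Ω) hΩ v z hvz' hv fun a => ?_
  obtain ⟨g, hg, hl, hy⟩ := hz a
  refine ⟨g, hg, hl, ?_⟩
  filter_upwards [hy] with y hy hya
  have hL : LipschitzWith 1 (show H772R2.NS.E3 → ℝ from g) := by
    apply LipschitzWith.of_dist_le_mul
    intro x y
    have h := hl x y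
    rw [Real.dist_eq, dist_eq_norm, NNReal.coe_one, one_mul]
    exact h
  by_cases h : m < ‖vort (z.fn y)‖
  · have h1 := hy hya h
    have h2 : κ * ‖rot ((show H772R2.NS.L2M (show Set H772R2.NS.E3 from Ω) from z) y)‖ ≤
      fderiv ℝ (show H772R2.NS.E3 → ℝ from g) y
        (rot ((show H772R2.NS.L2M (show Set H772R2.NS.E3 from Ω) from z) y)) := h1
    linarith
  · have h1 : ‖rot ((show H772R2.NS.L2M (show Set H772R2.NS.E3 from Ω) from z) y)‖ ≤ m := not_lt.1 h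
    set w := rot ((show H772R2.NS.L2M (show Set H772R2.NS.E3 from Ω) from z) y) with hw
    have h2 := (fderiv ℝ (show H772R2.NS.E3 → ℝ from g) y).le_opNorm w
    have h3 := norm_fderiv_le_of_lipschitz ℝ (x₀ := (show H772R2.NS.E3 from y)) hL
    rw [Real.norm_eq_abs] at h2
    have h4 : ‖fderiv ℝ (show H772R2.NS.E3 → ℝ from g) y‖ * ‖w‖ ≤ 1 * ‖w‖ := by
      gcongr
      simpa using h3
    have h5 := neg_abs_le (fderiv ℝ (show H772R2.NS.E3 → ℝ from g) y w)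
    have h6 : κ * ‖w‖ ≤ ‖w‖ := by nlinarith [norm_nonneg w]
    change κ * ‖w‖ - 2 * m ≤ fderiv ℝ (show H772R2.NS.E3 → ℝ from g) y w
    linarith

theorem equality (hfour : S_four) {Ω : Set R3} (hΩ : IsOpen Ω) {ν T κ m R : ℝ}
    (hν : 0 < ν) (hT : 0 < T) (hκ : 0 < κ) (hκ1 : κ ≤ 1) (hm : 0 ≤ m) (hR : 0 < R)
    {u : ℝ → L2 Ω R3} {G : ℝ → L2 Ω Mat} {f : ℝ → L2 Ω R3} (hu : IsWeakSolution Ω ν T u G f)
    {b : ℝ → ℝ} (hb : ∀ t, 0 ≤ b t) (hintb : IntegrableOn b (Ioo 0 T))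
    (hyp : ∀ᵐ t ∂(volume.restrict (Ioo 0 T)),
      OneSided κ m R (G t) ∨ norm4 (u t) ^ 4 ≤ ENNReal.ofReal (b t)) :
    ∀ t ∈ Icc 0 T, energyDefect ν u G f t = 0 := by
  have h := toNS hu
  obtain ⟨M, hM⟩ := h.bdd
  have hM0 : 0 ≤ M := (norm_nonneg _).trans (hM 0 ⟨le_rfl, hT.le⟩)
  have hm' : MeasurableSet (show Set H772R2.NS.E3 from Ω) :=
    IsOpen.measurableSet (α := H772R2.NS.E3) hΩ
  obtain ⟨C, hC⟩ := fourth hfour hκ hκ1 hm hR hM0
  have hgi : Integrable (fun t => ‖G t‖ ^ 2) (volume.restrict (Ioo 0 T)) :=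
    hu.gradL2.integrable_norm_pow two_ne_zero
  have hint4 : IntegrableOn (fun t => C * ‖G t‖ ^ 2 + b t) (Ioo 0 T) :=
    (hgi.const_mul (C : ℝ)).add hintb
  refine energy_eq (Ω := (Ω : Set H772R2.NS.E3)) hΩ (a := 1) hν.le hT (by positivity) h hM
    (b := fun t => C * ‖G t‖ ^ 2 + b t)
    (fun t => by
      have a2 := hb t
      positivity)
    hint4 ?_
  filter_upwards [hyp, hu.grad, h.grad, ae_restrict_mem measurableSet_Ioo] with t ht hGp hG htI p' hpW hpM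
  have hW : (u t, G t) ∈ H772R2.NS.graphW (show Set H772R2.NS.E3 from Ω) :=
    H772R2.NS.mem_graphW.mpr hG
  have hut := hM t (Ioo_subset_Icc_self htI)
  have a2 := hb t
  have h5' : 0 ≤ ‖(show H772R2.NS.L2M (show Set H772R2.NS.E3 from Ω) from G t)‖ ^ 2 := by
    positivity
  have h5 : 0 ≤ ‖p'.2‖ ^ 2 := by positivity
  have a3 : 0 ≤ (C : ℝ) * ‖G t‖ ^ 2 := by positivity
  have hfourt : norm4 (u t) ^ 4 ≤ ENNReal.ofReal (C * ‖G t‖ ^ 2 + b t) := by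
    rcases ht with ht | ht
    · refine (hC Ω hm' (u t) (G t) hGp hut ht).trans ?_
      rw [← ENNReal.ofReal_coe_nnreal, ← ENNReal.ofReal_mul (by positivity)]
      exact ENNReal.ofReal_le_ofReal (by linarith)
    · exact ht.trans (ENNReal.ofReal_le_ofReal (by linarith))
  have h1 := H772R2.NS.enorm_tensL hm' hW
  have h2 : ‖H772R2.NS.tensL (Ω := (show Set H772R2.NS.E3 from Ω)) (u t)‖ ^ 2 ≤ C * ‖G t‖ ^ 2 + b t := by
    have h3 : ‖H772R2.NS.tensL (Ω := (show Set H772R2.NS.E3 from Ω)) (u t)‖ₑ ^ 2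
        ≤ ENNReal.ofReal (C * ‖G t‖ ^ 2 + b t) := by
      rw [h1, ← pow_mul]
      exact hfourt
    rw [← ofReal_norm, ← ENNReal.ofReal_pow (norm_nonneg _)] at h3
    exact (ENNReal.ofReal_le_ofReal_iff (by linarith)).1 h3
  have h4 := abs_real_inner_le_norm (H772R2.NS.tensL (Ω := (show Set H772R2.NS.E3 from Ω)) (u t))
    p'.2
  have h6 : ‖H772R2.NS.tensL (Ω := (show Set H772R2.NS.E3 from Ω)) (u t)‖ * ‖p'.2‖
      ≤ (‖H772R2.NS.tensL (Ω := (show Set H772R2.NS.E3 from Ω)) (u t)‖ ^ 2 + ‖p'.2‖ ^ 2) / 2 := by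
    nlinarith [sq_nonneg (‖H772R2.NS.tensL (Ω := (show Set H772R2.NS.E3 from Ω)) (u t)‖ - ‖p'.2‖)]
  have h7 : 0 ≤ C * ‖G t‖ ^ 2 + b t := by linarith
  linarith

end Pool.Agent.U481.EV
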