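import Pool.Agent.U481.EV.MorC

set_option autoImplicit false

open MeasureTheory Set
open scoped ENNReal NNReal ContDiff

namespace Pool.Agent.U481.EV

open H772R2.NS

lemma rot_cont : Continuous rot := by
  unfold rot
  apply (PiLp.continuous_toLp 2 _).comp
  apply continuous_pi
  intro i
  fin_cases i <;> simp <;> fun_prop

lemma rot_bd (z : M3) : ‖rot z‖ ≤ 2 * ‖z‖ := by
  have := rot_norm z
  nlinarith [norm_nonneg z, norm_nonneg (rot z)]

/-- Cauchy-Schwarz on a ball. -/
lemma cs_ball {Ω : Set E3} {F : Type*} [NormedAddCommGroup F] (v : E3 → F)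
    (hv : MemLp v 2 (volume.restrict Ω)) (a : E3) {R : ℝ} (hR : 0 < R) :
    IntegrableOn v (Metric.ball a R) (volume.restrict Ω) ∧
    ∫ y in Metric.ball a R, ‖v y‖ ∂(volume.restrict Ω) ≤
      (eLpNorm v 2 (volume.restrict Ω)).toReal *
        √((volume : Measure E3).real (Metric.ball 0 1) * R ^ 3) := by
  have hv' : MemLp v 2 ((volume.restrict Ω).restrict (Metric.ball a R)) := hv.restrict _
  have hfin : ((volume.restrict Ω).restrict (Metric.ball a R)) univ ≤ (volume : Measure E3) (Metric.ball a R) := by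
    rw [Measure.restrict_apply_univ]
    exact Measure.restrict_apply_le _ _
  haveI : IsFiniteMeasure ((volume.restrict Ω).restrict (Metric.ball a R)) :=
    ⟨hfin.trans_lt measure_ball_lt_top⟩
  have hint : IntegrableOn v (Metric.ball a R) (volume.restrict Ω) :=
    hv'.integrable (by norm_num)
  refine ⟨hint, ?_⟩
  have h1 := eLpNorm_le_eLpNorm_mul_rpow_measure_univ (p := 1) (q := 2) (by norm_num)
    hv'.aestronglyMeasurable
  have h2 : ((1 : ℝ≥0∞).toReal)⁻¹ - ((2 : ℝ≥0∞).toReal)⁻¹ = 1 / 2 := by norm_num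
  have h3 : eLpNorm v 1 ((volume.restrict Ω).restrict (Metric.ball a R)) ≤
      eLpNorm v 2 (volume.restrict Ω) * (volume (Metric.ball a R)) ^ (1 / 2 : ℝ) := by
    refine h1.trans ?_
    have h4 : (1 / (1 : ℝ≥0∞).toReal - 1 / (2 : ℝ≥0∞).toReal) = (1 / 2 : ℝ) := by norm_num
    rw [h4]
    exact mul_le_mul' (eLpNorm_mono_measure v Measure.restrict_le_self)
      (ENNReal.rpow_le_rpow hfin (by norm_num))
  have h5 : ∫ y in Metric.ball a R, ‖v y‖ ∂(volume.restrict Ω) =
      (eLpNorm v 1 ((volume.restrict Ω).restrict (Metric.ball a R))).toReal := by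
    rw [integral_norm_eq_lintegral_enorm hint.aestronglyMeasurable, eLpNorm_one_eq_lintegral_enorm]
  rw [h5]
  have hvol : volume (Metric.ball a R) = ENNReal.ofReal ((volume : Measure E3).real (Metric.ball 0 1) * R ^ 3) := by
    rw [Measure.addHaar_ball _ _ hR.le, ENNReal.ofReal_mul (by positivity), mul_comm]
    congr 1
    · simp [Measure.real]
    · simp
  have hne : eLpNorm v 2 (volume.restrict Ω) * (volume (Metric.ball a R)) ^ (1 / 2 : ℝ) ≠ ⊤ := by
    apply ENNReal.mul_ne_top hv.2.ne
    exact (ENNReal.rpow_lt_top_of_nonneg (by norm_num) measure_ball_lt_top.ne).ne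
  refine (ENNReal.toReal_mono hne h3).trans (le_of_eq ?_)
  rw [ENNReal.toReal_mul, hvol, ← ENNReal.toReal_rpow, ENNReal.toReal_ofReal (by positivity),
    Real.sqrt_eq_rpow]

theorem main_mor (hid : S_id) : S_mor := by
  obtain ⟨C1, hC1, hinv⟩ := inv_int
  obtain ⟨χ0, C0, hC0, hχs, hχc, hχ01, hχ1, hχ0, hdb, hd0, hd1⟩ := bump
  set c := (volume : Measure E3).real (Metric.ball 0 1) with hc
  have hc0 : 0 ≤ c := by positivity
  refine ⟨Real.toNNReal (8 * (4 * C0 * √c + C1)), ?_⟩
  intro Ω hΩ v z hvz κ m R hκ hκ1 hm hR a g hg hl hyp r hr hrR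
  set μ := (volume : Measure E3).restrict Ω with hμ
  set W : E3 → E3 := fun y => rot (z y) with hW
  have hzm : MemLp z 2 μ := Lp.memLp z
  have hWm : AEStronglyMeasurable W μ := rot_cont.comp_aestronglyMeasurable hzm.1
  have hWL : MemLp W 2 μ := by
    refine MemLp.of_le_mul (c := 2) hzm hWm (Filter.Eventually.of_forall fun y => rot_bd _)
  -- cutoff
  set χ : E3 → ℝ := fun y => χ0 (R⁻¹ • (y - a)) with hχ
  have hχsm : ContDiff ℝ ∞ χ := hχs.comp ((contDiff_id.sub contDiff_const).const_smul _)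
  have hnorm : ∀ y : E3, ‖R⁻¹ • (y - a)‖ = ‖y - a‖ / R := by
    intro y
    rw [norm_smul, norm_inv, Real.norm_of_nonneg hR.le, div_eq_inv_mul]
  have hχout : ∀ y, y ∉ Metric.ball a R → χ y = 0 := by
    intro y hy
    apply hχ0
    rw [hnorm, le_div_iff₀ hR, one_mul]
    simpa [dist_eq_norm] using hy
  have hχcs : HasCompactSupport χ := by
    apply HasCompactSupport.of_support_subset_isCompact (isCompact_closedBall a R)
    intro y hy
    by_contra h
    exact hy (hχout y fun h' => h (Metric.ball_subset_closedBall h'))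
  have hχd : ∀ y, fderiv ℝ χ y = R⁻¹ • fderiv ℝ χ0 (R⁻¹ • (y - a)) := by
    intro y
    have h1 : HasFDerivAt (fun y : E3 => R⁻¹ • (y - a)) (R⁻¹ • ContinuousLinearMap.id ℝ E3) y :=
      ((hasFDerivAt_id (𝕜 := ℝ) y).sub_const a).const_smul R⁻¹
    have h2 : HasFDerivAt χ0 (fderiv ℝ χ0 (R⁻¹ • (y - a))) (R⁻¹ • (y - a)) :=
      ((hχs.differentiable (by simp)) _).hasFDerivAt
    have h3 := (h2.comp y h1).fderiv
    change fderiv ℝ (χ0 ∘ fun y => R⁻¹ • (y - a)) y = _
    rw [h3]
    ext w
    simp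
  set H := HH κ r a g with hH
  have hHc : ContDiff ℝ 1 H := HH_c1 hκ hr a hg
  have hmain := hid Ω hΩ v z hvz χ H hχsm hχcs hHc
  -- upper bound
  obtain ⟨hvi, hvb⟩ := cs_ball (Ω := Ω) (fun y => v y) (Lp.memLp v) a hR
  have hup : ∫ y in Ω, ‖v y‖ * (‖fderiv ℝ H y‖ * ‖fderiv ℝ χ y‖) ≤
      4 * C0 * √c / κ * (‖v‖ / √R) := by
    set K := 4 * C0 / (κ * R ^ 2) with hK
    have hK0 : 0 ≤ K := by positivity
    have hpt : ∀ y, ‖v y‖ * (‖fderiv ℝ H y‖ * ‖fderiv ℝ χ y‖) ≤
        (Metric.ball a R).indicator (fun y => K * ‖v y‖) y := by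
      intro y
      by_cases hy : y ∈ Metric.ball a R
      · rw [indicator_of_mem hy]
        by_cases hy2 : ‖y - a‖ < R / 2
        · have : fderiv ℝ χ y = 0 := by
            rw [hχd, hd0, smul_zero]
            rw [hnorm, div_lt_iff₀ hR]; linarith
          rw [this]
          simp only [norm_zero, mul_zero]
          positivity
        · have h1 : ‖fderiv ℝ χ y‖ ≤ C0 / R := by
            rw [hχd, norm_smul, norm_inv, Real.norm_of_nonneg hR.le, div_eq_inv_mul]
            gcongr
            exact hdb _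
          have hs := st_pos a hr y
          have hs2 : R / 2 ≤ st a r y := (not_lt.1 hy2).trans (st_ge a r y)
          have h2 : ‖fderiv ℝ H y‖ ≤ 4 / (κ * R) := by
            refine (HH_norm hκ hr a hg hl hκ1 y).trans ?_
            rw [div_le_div_iff₀ (by positivity) (by positivity)]
            nlinarith
          calc ‖v y‖ * (‖fderiv ℝ H y‖ * ‖fderiv ℝ χ y‖) ≤ ‖v y‖ * (4 / (κ * R) * (C0 / R)) := by
                gcongr
            _ = K * ‖v y‖ := by rw [hK]; field_simp
      · rw [indicator_of_notMem hy]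
        have : fderiv ℝ χ y = 0 := by
          rw [hχd, hd1, smul_zero]
          rw [hnorm, le_div_iff₀ hR, one_mul]
          simpa [dist_eq_norm] using hy
        rw [this]; simp
    have hKi : Integrable ((Metric.ball a R).indicator (fun y => K * ‖v y‖)) μ := by
      rw [integrable_indicator_iff Metric.isOpen_ball.measurableSet]
      exact (hvi.norm).const_mul K
    calc ∫ y in Ω, ‖v y‖ * (‖fderiv ℝ H y‖ * ‖fderiv ℝ χ y‖)
        ≤ ∫ y, (Metric.ball a R).indicator (fun y => K * ‖v y‖) y ∂μ := by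
          apply integral_mono_of_nonneg (Filter.Eventually.of_forall fun y => by positivity) hKi
          exact Filter.Eventually.of_forall hpt
      _ = K * ∫ y in Metric.ball a R, ‖v y‖ ∂μ := by
          rw [integral_indicator Metric.isOpen_ball.measurableSet, integral_const_mul]
      _ ≤ K * (‖v‖ * √(c * R ^ 3)) := by
          gcongr
          rw [Lp.norm_def]
          exact hvb
      _ = 4 * C0 * √c / κ * (‖v‖ / √R) := by
          have h1 : √(c * R ^ 3) = √c * (R * √R) := by
            rw [Real.sqrt_mul hc0]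
            congr 1
            rw [show R ^ 3 = (R * √R) ^ 2 by rw [mul_pow, Real.sq_sqrt hR.le]; ring]
            exact Real.sqrt_sq (by positivity)
          have h2 : √R * √R = R := Real.mul_self_sqrt hR.le
          have h3 : 0 < √R := Real.sqrt_pos.2 hR
          rw [h1, hK]
          have h2' : √R ^ 2 = R := Real.sq_sqrt hR.le
          field_simp
          rw [h2']
          try ring
  -- lower bound
  obtain ⟨hWi, -⟩ := cs_ball (Ω := Ω) W hWL a hR
  obtain ⟨hii, hib⟩ := hinv a R hR
  set N := Metric.ball a (κ * r / 4) with hN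
  have hNB : N ⊆ Metric.ball a R := Metric.ball_subset_ball (by nlinarith)
  have hcont : Continuous (fderiv ℝ H) := hHc.continuous_fderiv one_ne_zero
  have hDm : AEStronglyMeasurable (fun y => fderiv ℝ H y (W y)) μ :=
    isBoundedBilinearMap_apply.continuous.comp_aestronglyMeasurable
      (hcont.aestronglyMeasurable.prodMk hWm)
  have hLi : Integrable (fun y => χ y * fderiv ℝ H y (W y)) μ := by
    have hbi : Integrable ((Metric.ball a R).indicator (fun y => 2 / (κ * r) * ‖W y‖)) μ := by
      rw [integrable_indicator_iff Metric.isOpen_ball.measurableSet]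
      exact (hWi.norm).const_mul _
    refine hbi.mono' (hχsm.continuous.aestronglyMeasurable.mul hDm) (Filter.Eventually.of_forall fun y => ?_)
    by_cases hy : y ∈ Metric.ball a R
    · rw [indicator_of_mem hy, norm_mul]
      have h1 : ‖χ y‖ ≤ 1 := by
        rw [Real.norm_of_nonneg (hχ01 _).1]; exact (hχ01 _).2
      have h2 : ‖fderiv ℝ H y‖ ≤ 2 / (κ * r) := by
        refine (HH_norm hκ hr a hg hl hκ1 y).trans ?_
        have := st_ge_r a hr y
        gcongr
      calc ‖χ y‖ * ‖fderiv ℝ H y (W y)‖ ≤ 1 * (‖fderiv ℝ H y‖ * ‖W y‖) := by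
            gcongr
            exact (fderiv ℝ H y).le_opNorm _
        _ ≤ 2 / (κ * r) * ‖W y‖ := by rw [one_mul]; gcongr
    · rw [indicator_of_notMem hy, hχout y hy]; simp
  have hNi : Integrable (N.indicator (fun y => ‖W y‖ / (8 * r))) μ := by
    rw [integrable_indicator_iff Metric.isOpen_ball.measurableSet]
    exact ((hWi.mono_set hNB).norm).div_const _
  have hBi : Integrable (fun y => m / κ * (Metric.ball a R).indicator (fun y => ‖y - a‖⁻¹) y) μ :=
    (hii.mono_measure Measure.restrict_le_self).const_mul _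
  have hae : ∀ᵐ y ∂μ, y ≠ a := by
    apply ae_restrict_of_ae
    exact (Measure.ae_ne volume a)
  have hlow : (∫ y, N.indicator (fun y => ‖W y‖ / (8 * r)) y ∂μ) -
      m / κ * (C1 * R ^ 2) ≤ ∫ y in Ω, χ y * fderiv ℝ H y (W y) := by
    have h1 : ∫ y, (N.indicator (fun y => ‖W y‖ / (8 * r)) y
        - m / κ * (Metric.ball a R).indicator (fun y => ‖y - a‖⁻¹) y) ∂μ ≤
        ∫ y, χ y * fderiv ℝ H y (W y) ∂μ := by
      apply integral_mono_ae (hNi.sub hBi) hLi
      filter_upwards [hyp, hae] with y hy hya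
      have hpos : 0 < ‖y - a‖ := norm_pos_iff.2 (sub_ne_zero.2 hya)
      have hsti : (st a r y)⁻¹ ≤ ‖y - a‖⁻¹ := by
        have := st_ge a r y
        gcongr
      have hmk : 0 ≤ m / κ := by positivity
      change N.indicator (fun y => ‖W y‖ / (8 * r)) y
        - m / κ * (Metric.ball a R).indicator (fun y => ‖y - a‖⁻¹) y ≤ χ y * fderiv ℝ H y (W y)
      by_cases hyB : y ∈ Metric.ball a R
      · have hy' := hy hyB
        have hmul : m / κ * (st a r y)⁻¹ ≤ m / κ * ‖y - a‖⁻¹ := mul_le_mul_of_nonneg_left hsti hmk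
        rw [indicator_of_mem hyB]
        by_cases hyN : y ∈ N
        · rw [indicator_of_mem hyN]
          have hya2 : ‖y - a‖ < κ * r / 4 := by simpa [hN, dist_eq_norm] using hyN
          have hχy : χ y = 1 := by
            apply hχ1
            rw [hnorm, div_le_iff₀ hR]
            nlinarith
          rw [hχy, one_mul]
          have := HH_ge_near hκ hr a hg hl hm y (W y) hy' hya2.le hκ1
          linarith
        · rw [indicator_of_notMem hyN]
          have h2 := HH_ge hκ hr a hg hm y (W y) hy'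
          have h3 := (hχ01 (R⁻¹ • (y - a))).1
          have h4 := (hχ01 (R⁻¹ • (y - a))).2
          have h5 : 0 ≤ m / κ * (st a r y)⁻¹ := by
            have := st_pos a hr y
            positivity
          have h6 : -(m / κ * (st a r y)⁻¹) ≤ χ y * fderiv ℝ H y (W y) := by
            have : χ y * (-(m / κ * (st a r y)⁻¹)) ≤ χ y * fderiv ℝ H y (W y) :=
              mul_le_mul_of_nonneg_left h2 h3
            have h7 : χ y * (m / κ * (st a r y)⁻¹) ≤ 1 * (m / κ * (st a r y)⁻¹) :=
              mul_le_mul_of_nonneg_right h4 h5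
            linarith
          linarith
      · have hyN : y ∉ N := fun h => hyB (hNB h)
        rw [indicator_of_notMem hyB, indicator_of_notMem hyN, hχout y hyB]
        simp
    rw [integral_sub hNi hBi, integral_const_mul] at h1
    have h2 : ∫ y, (Metric.ball a R).indicator (fun y => ‖y - a‖⁻¹) y ∂μ ≤ C1 * R ^ 2 := by
      refine le_trans ?_ hib
      apply integral_mono_measure Measure.restrict_le_self _ hii
      exact Filter.Eventually.of_forall fun y => indicator_nonneg (fun y _ => by positivity) y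
    have h3 : 0 ≤ m / κ := by positivity
    have h4 := mul_le_mul_of_nonneg_left h2 h3
    linarith
  have htot : ∫ y, N.indicator (fun y => ‖W y‖ / (8 * r)) y ∂μ ≤
      4 * C0 * √c / κ * (‖v‖ / √R) + m / κ * (C1 * R ^ 2) := by
    have := (le_abs_self _).trans (hmain.trans hup)
    linarith
  rw [integral_indicator Metric.isOpen_ball.measurableSet, integral_div] at htot
  have hNint : Integrable W ((volume.restrict Ω).restrict N) := hWi.mono_set hNB
  have hfin : ∫ y in N, ‖W y‖ ∂μ ≤
      (8 * (4 * C0 * √c + C1)) * (r / κ ^ 2 * (‖v‖ / √R + m * R ^ 2)) := by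
    have h1 : ∫ y in N, ‖W y‖ ∂μ ≤ 8 * r * (4 * C0 * √c / κ * (‖v‖ / √R) + m / κ * (C1 * R ^ 2)) := by
      rw [div_le_iff₀ (by positivity)] at htot
      linarith
    refine h1.trans ?_
    have hv0 : 0 ≤ ‖v‖ / √R := by positivity
    have h2 : 8 * r * (4 * C0 * √c / κ * (‖v‖ / √R) + m / κ * (C1 * R ^ 2)) =
      (8 * r / κ) * (4 * C0 * √c * (‖v‖ / √R) + C1 * (m * R ^ 2)) := by field_simp
    have h3 : (8 * (4 * C0 * √c + C1)) * (r / κ ^ 2 * (‖v‖ / √R + m * R ^ 2)) =
      (8 * r / κ ^ 2) * ((4 * C0 * √c + C1) * (‖v‖ / √R + m * R ^ 2)) := by ring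
    rw [h2, h3]
    have h4 : 8 * r / κ ≤ 8 * r / κ ^ 2 := by
      gcongr
      nlinarith
    have h5 : 4 * C0 * √c * (‖v‖ / √R) + C1 * (m * R ^ 2) ≤
        (4 * C0 * √c + C1) * (‖v‖ / √R + m * R ^ 2) := by
      have e1 : 0 ≤ 4 * C0 * √c * (m * R ^ 2) := by positivity
      have e2 : 0 ≤ C1 * (‖v‖ / √R) := by positivity
      nlinarith
    have h6 : 0 ≤ 4 * C0 * √c * (‖v‖ / √R) + C1 * (m * R ^ 2) := by positivity
    exact mul_le_mul h4 h5 h6 (by positivity)
  have hres : (volume : Measure E3).restrict (Ω ∩ N) = (volume.restrict Ω).restrict N := by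
    rw [Measure.restrict_restrict Metric.isOpen_ball.measurableSet, inter_comm]
  have hC : ((Real.toNNReal (8 * (4 * C0 * √c + C1)) : ℝ≥0) : ℝ≥0∞) =
      ENNReal.ofReal (8 * (4 * C0 * √c + C1)) := rfl
  rw [hres, hC, ← ENNReal.ofReal_mul (by positivity)]
  rw [integral_norm_eq_lintegral_enorm hNint.aestronglyMeasurable] at hfin
  rw [← ENNReal.ofReal_toReal hNint.2.ne]
  exact ENNReal.ofReal_le_ofReal hfin

end Pool.Agent.U481.EV
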