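import Pool.Agent.U481.EV.Stm

set_option autoImplicit false

open MeasureTheory Set
open scoped ENNReal NNReal ContDiff

namespace Pool.Agent.U481.EV

open H772R2.NS

/-- derivative of the profile -/
noncomputable def fp (τ : ℝ) : ℝ := max 0 (1 - τ ^ 2)

noncomputable def ff (τ : ℝ) : ℝ := ∫ s in (0 : ℝ)..τ, fp s

lemma fp_cont : Continuous fp := by unfold fp; fun_prop

lemma fp_nonneg (τ : ℝ) : 0 ≤ fp τ := le_max_left _ _

lemma fp_le (τ : ℝ) : fp τ ≤ 1 := by
  unfold fp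
  exact max_le zero_le_one (by nlinarith [sq_nonneg τ])

lemma fp_zero {τ : ℝ} (h : 1 ≤ |τ|) : fp τ = 0 := by
  unfold fp
  apply max_eq_left
  have : 1 ≤ τ ^ 2 := by
    rw [← sq_abs]; nlinarith [abs_nonneg τ]
  linarith

lemma fp_ge {τ : ℝ} (h : |τ| ≤ 1 / 4) : 1 / 2 ≤ fp τ := by
  unfold fp
  apply le_max_of_le_right
  have : τ ^ 2 ≤ 1 / 16 := by
    rw [← sq_abs]; nlinarith [abs_nonneg τ]
  linarith

lemma ff_deriv (τ : ℝ) : HasDerivAt ff (fp τ) τ :=
  intervalIntegral.integral_hasDerivAt_right (fp_cont.intervalIntegrable _ _)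
    (fp_cont.stronglyMeasurableAtFilter _ _) fp_cont.continuousAt

lemma ff_c1 : ContDiff ℝ 1 ff := by
  rw [contDiff_one_iff_deriv]
  refine ⟨fun τ => (ff_deriv τ).differentiableAt, ?_⟩
  have : deriv ff = fp := funext fun τ => (ff_deriv τ).deriv
  rw [this]
  exact fp_cont

/-- `s̃(y) = √(‖y - a‖² + r²)` -/
noncomputable def st (a : E3) (r : ℝ) (y : E3) : ℝ := √(‖y - a‖ ^ 2 + r ^ 2)

lemma st_pos (a : E3) {r : ℝ} (hr : 0 < r) (y : E3) : 0 < st a r y := by
  unfold st; positivity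

lemma st_ge_r (a : E3) {r : ℝ} (hr : 0 < r) (y : E3) : r ≤ st a r y := by
  unfold st
  apply Real.le_sqrt_of_sq_le
  nlinarith [sq_nonneg ‖y - a‖]

lemma st_ge (a : E3) (r : ℝ) (y : E3) : ‖y - a‖ ≤ st a r y := by
  unfold st
  apply Real.le_sqrt_of_sq_le
  nlinarith [sq_nonneg r]

lemma st_sq (a : E3) (r : ℝ) (y : E3) : st a r y ^ 2 = ‖y - a‖ ^ 2 + r ^ 2 := by
  unfold st
  exact Real.sq_sqrt (by positivity)

lemma st_deriv (a : E3) {r : ℝ} (hr : 0 < r) (y : E3) :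
    HasFDerivAt (st a r) ((1 / st a r y) • innerSL ℝ (y - a)) y := by
  have h1 : HasFDerivAt (fun y : E3 => ‖y - a‖ ^ 2 + r ^ 2) (2 • innerSL ℝ (y - a)) y := by
    have h2 : HasFDerivAt (fun y : E3 => y - a) (ContinuousLinearMap.id ℝ E3) y :=
      (hasFDerivAt_id y).sub_const a
    have := (h2.norm_sq).add_const (r ^ 2)
    simpa using this
  have h3 : ‖y - a‖ ^ 2 + r ^ 2 ≠ 0 := by positivity
  have h4 := h1.sqrt h3
  refine h4.congr_fderiv ?_
  ext w
  simp only [st, ContinuousLinearMap.smul_apply, ContinuousLinearMap.coe_smul', Pi.smul_apply, smul_eq_mul, nsmul_eq_mul, Nat.cast_ofNat, innerSL_apply_apply]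
  field_simp

lemma st_c1 (a : E3) {r : ℝ} (hr : 0 < r) : ContDiff ℝ 1 (st a r) := by
  unfold st
  apply ContDiff.sqrt
  · exact (((contDiff_id.sub contDiff_const).norm_sq ℝ).add contDiff_const)
  · intro y; positivity

/-- the test function -/
noncomputable def HH (κ r : ℝ) (a : E3) (g : E3 → ℝ) (y : E3) : ℝ :=
  ff ((g y - g a) / (κ * st a r y))

lemma HH_c1 {κ r : ℝ} (hκ : 0 < κ) (hr : 0 < r) (a : E3) {g : E3 → ℝ} (hg : ContDiff ℝ 1 g) :
    ContDiff ℝ 1 (HH κ r a g) := by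
  unfold HH
  apply ff_c1.comp
  exact (hg.sub contDiff_const).div (contDiff_const.mul (st_c1 a hr))
    fun y => (mul_pos hκ (st_pos a hr y)).ne'

lemma HH_fderiv {κ r : ℝ} (hκ : 0 < κ) (hr : 0 < r) (a : E3) {g : E3 → ℝ} (hg : ContDiff ℝ 1 g)
    (y w : E3) :
    fderiv ℝ (HH κ r a g) y w = fp ((g y - g a) / (κ * st a r y)) *
      ((fderiv ℝ g y w) / (κ * st a r y)
        - (g y - g a) * inner ℝ (y - a) w / (κ * st a r y ^ 3)) := by
  have hs := st_pos a hr y
  have hd : HasFDerivAt g (fderiv ℝ g y) y := ((hg.differentiable one_ne_zero) y).hasFDerivAt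
  have h1 : HasFDerivAt (fun y => g y - g a) (fderiv ℝ g y) y := hd.sub_const _
  have h2 : HasFDerivAt (fun y => κ * st a r y) (κ • ((1 / st a r y) • innerSL ℝ (y - a))) y :=
    (st_deriv a hr y).const_mul κ
  have h2i := (hasDerivAt_inv (mul_pos hκ hs).ne').comp_hasFDerivAt y h2
  have h3 := h1.mul h2i
  have h4 := (ff_deriv ((g y - g a) / (κ * st a r y))).comp_hasFDerivAt_of_eq y
    (f := fun y => (g y - g a) * (κ * st a r y)⁻¹) h3 (by simp [div_eq_mul_inv])
  have h5 : HH κ r a g = ff ∘ fun y => (g y - g a) * (κ * st a r y)⁻¹ := by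
    funext y; simp [HH, div_eq_mul_inv]
  rw [h5, h4.fderiv]
  generalize fp ((g y - g a) / (κ * st a r y)) = F
  simp only [ContinuousLinearMap.smul_apply, ContinuousLinearMap.add_apply, ContinuousLinearMap.coe_smul', ContinuousLinearMap.neg_apply, Pi.smul_apply, smul_eq_mul, innerSL_apply_apply, Function.comp]
  field_simp
  ring

end Pool.Agent.U481.EV
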