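import Pool.Agent.U481.EV.MorA

set_option autoImplicit false

open MeasureTheory Set
open scoped ENNReal NNReal ContDiff

namespace Pool.Agent.U481.EV

open H772R2.NS

section
variable {κ r : ℝ} (hκ : 0 < κ) (hκ1 : κ ≤ 1) (hr : 0 < r) (a : E3) {g : E3 → ℝ}
  (hg : ContDiff ℝ 1 g) (hl : ∀ x y, |g x - g y| ≤ ‖x - y‖)
include hκ hr hg

lemma second_term (y w : E3) :
    |(g y - g a) * inner ℝ (y - a) w / (κ * st a r y ^ 3)| ≤
      |(g y - g a) / (κ * st a r y)| * (‖w‖ / st a r y) := by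
  have hs := st_pos a hr y
  rw [abs_div, abs_mul, abs_div, abs_of_pos (by positivity : 0 < κ * st a r y ^ 3),
    abs_of_pos (mul_pos hκ hs), div_mul_div_comm]
  have h1 : |inner ℝ (y - a) w| ≤ st a r y * ‖w‖ :=
    (abs_real_inner_le_norm _ _).trans (mul_le_mul_of_nonneg_right (st_ge a r y) (norm_nonneg _))
  rw [div_le_div_iff₀ (by positivity) (by positivity)]
  calc |g y - g a| * |inner ℝ (y - a) w| * (κ * st a r y * st a r y)
      ≤ |g y - g a| * (st a r y * ‖w‖) * (κ * st a r y * st a r y) := by gcongr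
    _ = |g y - g a| * ‖w‖ * (κ * st a r y ^ 3) := by ring

lemma HH_lower {m : ℝ} (hm : 0 ≤ m) (y w : E3) (h : κ * ‖w‖ - m ≤ fderiv ℝ g y w) :
    fp ((g y - g a) / (κ * st a r y)) * ((1 - |(g y - g a) / (κ * st a r y)|) * (‖w‖ / st a r y))
      - m / (κ * st a r y) ≤ fderiv ℝ (HH κ r a g) y w := by
  have hs := st_pos a hr y
  rw [HH_fderiv hκ hr a hg]
  have h2 := second_term hκ hr a hg y w
  set τ := (g y - g a) / (κ * st a r y) with hτ
  have h3 : ‖w‖ / st a r y - m / (κ * st a r y) ≤ fderiv ℝ g y w / (κ * st a r y) := by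
    have : ‖w‖ / st a r y - m / (κ * st a r y) = (κ * ‖w‖ - m) / (κ * st a r y) := by
      field_simp
    rw [this]
    gcongr
  have h4 : (g y - g a) * inner ℝ (y - a) w / (κ * st a r y ^ 3) ≤ |τ| * (‖w‖ / st a r y) :=
    (le_abs_self _).trans h2
  have h5 := fp_nonneg τ
  have h6 := fp_le τ
  have h7 : 0 ≤ m / (κ * st a r y) := by positivity
  have h8 : fp τ * ((1 - |τ|) * (‖w‖ / st a r y) - m / (κ * st a r y)) ≤
      fp τ * (fderiv ℝ g y w / (κ * st a r y)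
        - (g y - g a) * inner ℝ (y - a) w / (κ * st a r y ^ 3)) := by
    apply mul_le_mul_of_nonneg_left _ h5
    linarith
  have h9 : fp τ * (m / (κ * st a r y)) ≤ m / (κ * st a r y) := by
    nlinarith
  nlinarith

lemma HH_ge {m : ℝ} (hm : 0 ≤ m) (y w : E3) (h : κ * ‖w‖ - m ≤ fderiv ℝ g y w) :
    - (m / κ * (st a r y)⁻¹) ≤ fderiv ℝ (HH κ r a g) y w := by
  have hs := st_pos a hr y
  refine le_trans ?_ (HH_lower hκ hr a hg hm y w h)
  set τ := (g y - g a) / (κ * st a r y) with hτ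
  have h1 : 0 ≤ fp τ * ((1 - |τ|) * (‖w‖ / st a r y)) := by
    rcases le_total 1 |τ| with h2 | h2
    · rw [fp_zero h2, zero_mul]
    · have := fp_nonneg τ
      have h3 : 0 ≤ 1 - |τ| := by linarith
      positivity
  have h2 : m / κ * (st a r y)⁻¹ = m / (κ * st a r y) := by field_simp
  rw [h2]
  linarith

include hl

lemma HH_ge_near {m : ℝ} (hm : 0 ≤ m) (y w : E3) (h : κ * ‖w‖ - m ≤ fderiv ℝ g y w)
    (hy : ‖y - a‖ ≤ κ * r / 4) (hκ1 : κ ≤ 1) :
    ‖w‖ / (8 * r) - m / κ * (st a r y)⁻¹ ≤ fderiv ℝ (HH κ r a g) y w := by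
  have hs := st_pos a hr y
  have hsr := st_ge_r a hr y
  refine le_trans ?_ (HH_lower hκ hr a hg hm y w h)
  have hτ1 : |(g y - g a) / (κ * st a r y)| ≤ 1 / 4 := by
    rw [abs_div, abs_of_pos (mul_pos hκ hs), div_le_iff₀ (mul_pos hκ hs)]
    have h1 := hl y a
    nlinarith
  set τ := (g y - g a) / (κ * st a r y) with hτ
  have h1 := fp_ge hτ1
  have h2 : st a r y ≤ 2 * r := by
    unfold st
    rw [Real.sqrt_le_left (by positivity)]
    have : ‖y - a‖ ≤ r := by nlinarith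
    nlinarith [norm_nonneg (y - a)]
  have h3 : ‖w‖ / (2 * r) ≤ ‖w‖ / st a r y := by gcongr
  have h4 : m / κ * (st a r y)⁻¹ = m / (κ * st a r y) := by field_simp
  rw [h4]
  have h5 : 0 ≤ ‖w‖ / (2 * r) := by positivity
  have h6 : ‖w‖ / (8 * r) = (‖w‖ / (2 * r)) / 4 := by field_simp; ring
  have h7 : 3 / 8 * (‖w‖ / (2 * r)) ≤ fp τ * ((1 - |τ|) * (‖w‖ / st a r y)) := by
    have h8 : 3 / 4 ≤ 1 - |τ| := by linarith
    calc 3 / 8 * (‖w‖ / (2 * r)) = 1 / 2 * (3 / 4 * (‖w‖ / (2 * r))) := by ring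
      _ ≤ fp τ * ((1 - |τ|) * (‖w‖ / st a r y)) := by gcongr
  rw [h6]
  linarith

lemma HH_norm (hκ1 : κ ≤ 1) (y : E3) : ‖fderiv ℝ (HH κ r a g) y‖ ≤ 2 / (κ * st a r y) := by
  have hs := st_pos a hr y
  apply ContinuousLinearMap.opNorm_le_bound _ (by positivity)
  intro w
  rw [HH_fderiv hκ hr a hg]
  have h2 := second_term hκ hr a hg y w
  have hL : LipschitzWith 1 g := by
    apply LipschitzWith.of_dist_le_mul
    intro x y
    simpa [Real.dist_eq, dist_eq_norm] using hl x y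
  have h1 : |fderiv ℝ g y w| ≤ ‖w‖ := by
    have := (fderiv ℝ g y).le_opNorm w
    have h3 := norm_fderiv_le_of_lipschitz ℝ (x₀ := y) hL
    rw [Real.norm_eq_abs] at this
    have h4 : ‖fderiv ℝ g y‖ * ‖w‖ ≤ 1 * ‖w‖ := by
      gcongr
      simpa using h3
    linarith
  set τ := (g y - g a) / (κ * st a r y) with hτ
  rcases le_total 1 |τ| with h3 | h3
  · rw [fp_zero h3, zero_mul, norm_zero]
    positivity
  · rw [norm_mul, Real.norm_eq_abs, Real.norm_eq_abs, abs_of_nonneg (fp_nonneg τ)]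
    have h4 : |fderiv ℝ g y w / (κ * st a r y)| ≤ ‖w‖ / (κ * st a r y) := by
      rw [abs_div, abs_of_pos (mul_pos hκ hs)]
      gcongr
    have h5 : |τ| * (‖w‖ / st a r y) ≤ ‖w‖ / (κ * st a r y) := by
      calc |τ| * (‖w‖ / st a r y) ≤ 1 * (‖w‖ / st a r y) := by gcongr
        _ = ‖w‖ / (1 * st a r y) := by ring_nf
        _ ≤ ‖w‖ / (κ * st a r y) := by gcongr
    have h6 : |fderiv ℝ g y w / (κ * st a r y) - (g y - g a) * inner ℝ (y - a) w / (κ * st a r y ^ 3)|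
        ≤ 2 / (κ * st a r y) * ‖w‖ := by
      calc _ ≤ |fderiv ℝ g y w / (κ * st a r y)| + |(g y - g a) * inner ℝ (y - a) w / (κ * st a r y ^ 3)| :=
            abs_sub _ _
        _ ≤ ‖w‖ / (κ * st a r y) + ‖w‖ / (κ * st a r y) := add_le_add h4 (h2.trans h5)
        _ = _ := by ring
    calc fp τ * _ ≤ 1 * (2 / (κ * st a r y) * ‖w‖) := mul_le_mul (fp_le τ) h6 (abs_nonneg _) zero_le_one
      _ = _ := one_mul _

end

end Pool.Agent.U481.EV
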