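import Pool.Agent.U481.EV.MorB

set_option autoImplicit false

open MeasureTheory Set
open scoped ENNReal NNReal ContDiff

namespace Pool.Agent.U481.EV

open H772R2.NS

lemma inv_int : ∃ C1 : ℝ, 0 ≤ C1 ∧ ∀ (a : E3) (R : ℝ), 0 < R →
    Integrable (fun y : E3 => (Metric.ball a R).indicator (fun y => ‖y - a‖⁻¹) y) ∧
    ∫ y : E3, (Metric.ball a R).indicator (fun y => ‖y - a‖⁻¹) y ≤ C1 * R ^ 2 := by
  refine ⟨3 * (volume : Measure E3).real (Metric.ball 0 1), by positivity, fun a R hR => ?_⟩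
  have hf : (fun y : E3 => (Metric.ball a R).indicator (fun y => ‖y - a‖⁻¹) y) =
      fun y => (fun x : E3 => (Iio R).indicator (fun s : ℝ => s⁻¹) ‖x‖) (y - a) := by
    funext y
    by_cases h : ‖y - a‖ < R
    · simp [indicator, h, dist_eq_norm]
    · simp [indicator, h, dist_eq_norm]
  have hd : Module.finrank ℝ E3 = 3 := by simp
  have hbd : ∀ s ∈ Ioi (0 : ℝ), s ^ (Module.finrank ℝ E3 - 1) • (Iio R).indicator (fun s : ℝ => s⁻¹) s
      = (Ioo 0 R).indicator (fun s => s) s := by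
    intro s hs
    have hs' : (0 : ℝ) < s := hs
    rw [hd]
    by_cases h : s < R
    · simp [indicator, h, hs']
      field_simp
    · simp [indicator, h]
  have hint0 : IntegrableOn (fun s : ℝ => (Ioo 0 R).indicator (fun s => s) s) (Ioi 0) := by
    apply Integrable.integrableOn
    rw [integrable_indicator_iff measurableSet_Ioo]
    exact (continuous_id.integrableOn_Icc).mono_set Ioo_subset_Icc_self
  have hi1 : Integrable (fun x : E3 => (Iio R).indicator (fun s : ℝ => s⁻¹) ‖x‖) := by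
    rw [integrable_fun_norm_addHaar volume (f := fun s => (Iio R).indicator (fun s : ℝ => s⁻¹) s)]
    exact hint0.congr_fun (fun s hs => (hbd s hs).symm) measurableSet_Ioi
  rw [hf]
  refine ⟨hi1.comp_sub_right a, ?_⟩
  rw [integral_sub_right_eq_self (fun x : E3 => (Iio R).indicator (fun s : ℝ => s⁻¹) ‖x‖) a,
    integral_fun_norm_addHaar volume (fun s => (Iio R).indicator (fun s : ℝ => s⁻¹) s)]
  rw [setIntegral_congr_fun measurableSet_Ioi hbd, hd]
  have h2 : ∫ s in Ioi (0 : ℝ), (Ioo 0 R).indicator (fun s => s) s ≤ R ^ 2 := by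
    rw [setIntegral_indicator measurableSet_Ioo]
    have h3 : Ioi (0 : ℝ) ∩ Ioo 0 R = Ioo 0 R := by
      ext s; simp +contextual
    rw [h3]
    calc ∫ s in Ioo 0 R, s ≤ ∫ s in Ioo 0 R, R := by
          apply setIntegral_mono_on
          · exact (continuous_id.integrableOn_Icc).mono_set Ioo_subset_Icc_self
          · exact (continuous_const.integrableOn_Icc).mono_set Ioo_subset_Icc_self
          · exact measurableSet_Ioo
          · intro s hs; exact hs.2.le
      _ = R ^ 2 := by simp [hR.le]; ring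
  simp only [nsmul_eq_mul, smul_eq_mul]
  have h4 : 0 ≤ (volume : Measure E3).real (Metric.ball 0 1) := by positivity
  push_cast
  nlinarith [mul_le_mul_of_nonneg_left h2 h4]

lemma bump : ∃ (χ0 : E3 → ℝ) (C0 : ℝ), 0 ≤ C0 ∧ ContDiff ℝ ∞ χ0 ∧ HasCompactSupport χ0 ∧
    (∀ x, 0 ≤ χ0 x ∧ χ0 x ≤ 1) ∧ (∀ x, ‖x‖ ≤ 1 / 2 → χ0 x = 1) ∧ (∀ x, 1 ≤ ‖x‖ → χ0 x = 0) ∧
    (∀ x, ‖fderiv ℝ χ0 x‖ ≤ C0) ∧ (∀ x, ‖x‖ < 1 / 2 → fderiv ℝ χ0 x = 0) ∧
    (∀ x, 1 ≤ ‖x‖ → fderiv ℝ χ0 x = 0) := by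
  let f : ContDiffBump (0 : E3) := ⟨1 / 2, 3 / 4, by norm_num, by norm_num⟩
  have hf : ContDiff ℝ ∞ (f : E3 → ℝ) := f.contDiff
  have hs : HasCompactSupport (f : E3 → ℝ) := f.hasCompactSupport
  have h1 : Continuous (fderiv ℝ (f : E3 → ℝ)) := hf.continuous_fderiv (by simp)
  obtain ⟨C, hC⟩ := (hs.fderiv (𝕜 := ℝ)).exists_bound_of_continuous h1
  refine ⟨f, max C 0, le_max_right _ _, hf, hs, fun x => ⟨f.nonneg, f.le_one⟩, fun x hx => ?_,
    fun x hx => ?_, fun x => (hC x).trans (le_max_left _ _), fun x hx => ?_, fun x hx => ?_⟩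
  · apply f.one_of_mem_closedBall
    simpa [f] using hx
  · apply f.zero_of_le_dist
    simp only [dist_zero_right]
    have : f.rOut = 3 / 4 := rfl
    rw [this]; linarith
  · have h2 : (f : E3 → ℝ) =ᶠ[nhds x] fun _ => (1 : ℝ) := by
      have : Metric.ball (0 : E3) (1 / 2) ∈ nhds x := Metric.isOpen_ball.mem_nhds (by simpa using hx)
      filter_upwards [this] with y hy
      apply f.one_of_mem_closedBall
      exact Metric.ball_subset_closedBall hy
    rw [h2.fderiv_eq]
    simp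
  · have h2 : (f : E3 → ℝ) =ᶠ[nhds x] fun _ => (0 : ℝ) := by
      have : (Metric.closedBall (0 : E3) (3 / 4))ᶜ ∈ nhds x := by
        apply Metric.isClosed_closedBall.isOpen_compl.mem_nhds
        simp only [mem_compl_iff, Metric.mem_closedBall, dist_zero_right, not_le]
        linarith
      filter_upwards [this] with y hy
      apply f.zero_of_le_dist
      simp only [mem_compl_iff, Metric.mem_closedBall, dist_zero_right, not_le] at hy
      simp only [dist_zero_right]
      exact hy.le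
    rw [h2.fderiv_eq]
    simp

lemma rot_norm (z : M3) : ‖rot z‖ ^ 2 ≤ 2 * ‖z‖ ^ 2 := by
  rw [EuclideanSpace.norm_sq_eq, EuclideanSpace.norm_sq_eq, Fin.sum_univ_three, Fintype.sum_prod_type,
    Fin.sum_univ_three, Fin.sum_univ_three, Fin.sum_univ_three, Fin.sum_univ_three]
  simp only [rot, Real.norm_eq_abs, sq_abs]
  simp
  nlinarith [sq_nonneg (z (2, 1) + z (1, 2)), sq_nonneg (z (0, 2) + z (2, 0)),
    sq_nonneg (z (1, 0) + z (0, 1)), sq_nonneg (z (0, 0)), sq_nonneg (z (1, 1)), sq_nonneg (z (2, 2))]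

end Pool.Agent.U481.EV
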